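import Mathlib
import Pool.Agent.V11246.DAh

set_option autoImplicit false

/-!
# Every non-smooth aperiodic countable Borel equivalence relation has a minimal `K_σ` realization

Let `E` be a non-smooth aperiodic countable Borel equivalence relation on `X`. By the Glimm-Effros
argument `E` is Borel isomorphic to the disjoint sum of `E` and `E₀ × I_ℕ`. By iterated Borel
matchings `X` splits into Borel pieces `Z_i` with finite-to-one Borel retractions `f_i : X → Z_i`
inside `E`. For a zero-dimensional Polish topology making everything continuous, `X` has a compactification
with countable remainder, and the closures of the graphs generating `E` only add pairs of remainder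
points. Blow up the countable dense `E₀ × I_ℕ` class of `2^ℕ × ℕ`: over its `i`-th point put the
closure of `Z_i`, and let the other points at distance `2^{-k}` from it approach it at the location
`f_i (z_k)`, where `z_k` runs through a dense sequence with infinite repetitions. The result is a
locally compact Polish space on which the relation equal to `E` on the pieces, to `E₀ × I_ℕ` on the
rest, and with all remainder points equivalent, is `K_σ` with all classes dense.
-/

namespace Pool.Agent.Results.MP_daea50_lc.MinimalKSigma

universe u

/-- Every non-smooth aperiodic countable Borel equivalence relation on a standard Borel space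
is Borel isomorphic to an equivalence relation on a (locally compact) Polish space which is a
`K_σ` set (a countable union of compact subsets of the square) and all of whose classes are
dense. -/
theorem result {X : Type u} [MeasurableSpace X] [StandardBorelSpace X]
    (E : X → X → Prop) (hE : Equivalence E) (hm : MeasurableSet {p : X × X | E p.1 p.2})
    (hc : ∀ x, {y | E x y}.Countable) (ha : ∀ x, {y | E x y}.Infinite)
    (hns : ¬ ∃ S : Set X, MeasurableSet S ∧ ∀ x, ∃! y, y ∈ S ∧ E x y) :
    ∃ (Y : Type) (_ : TopologicalSpace Y) (_ : PolishSpace Y) (_ : LocallyCompactSpace Y)
      (_ : MeasurableSpace Y) (_ : BorelSpace Y) (f : X ≃ᵐ Y),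
      (∃ K : ℕ → Set (Y × Y), (∀ n, IsCompact (K n)) ∧
        {p : Y × Y | E (f.symm p.1) (f.symm p.2)} = ⋃ n, K n) ∧
      ∀ y, Dense {z | E (f.symm y) (f.symm z)} :=
  Pool.Agent.V11246.DA.final E hE hm hc ha hns

end Pool.Agent.Results.MP_daea50_lc.MinimalKSigma
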